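import Pool.Agent.Helper79.LG.Goals

/-!
# Project LG (MP_d01c92_ag), packet RAISE: raising the level of an equation
-/

set_option autoImplicit false

universe u v

open Pool.Agent.Helper64.IG Pool.Agent.Helper79.LG

namespace Pool.Agent.Helper57.LG

/-- the embedding of the coordinates of the level `(n, p)` in those of the level
`(n + 1, p + 1)`. -/
def up {n p : ℕ} (a : Fin p → Ix n p) : Fin (p + 1) → Ix (n + 1) (p + 1) :=
  Fin.cons (Sum.inr (Fin.last p))
    (inc le_rfl (Nat.le_succ p) ∘ (inc (Nat.le_succ n) le_rfl ∘ a))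

theorem up_eq {K : Type u} [Field K] (x : Pt K) (n p : ℕ) :
    x.x (n + 1) (p + 1) ∘ up = x.x n p := by
  rw [← x.xi_eq n p, ← x.theta_eq (n + 1) p]
  rfl

theorem raise : G_RAISE.{u, v} := by
  intro k K _ _ _ e
  refine ⟨MvPolynomial.rename up e.f, fun x => ?_⟩
  unfold Sat
  show _ ↔ MvPolynomial.aeval (x.x (e.n + 1) (e.p + 1)) (MvPolynomial.rename up e.f) = 0
  rw [MvPolynomial.aeval_rename, up_eq]

end Pool.Agent.Helper57.LG
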